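import Mathlib

set_option autoImplicit false

open Metric

namespace Pool.Agent.Results.MP_d10958_an.NoCcsDelta

section defs

variable (𝕜 : Type) [RCLike 𝕜] {X : Type} [NormedAddCommGroup X] [NormedSpace 𝕜 X]

/-- the slice `S(g, δ)` of the closed unit ball -/
def slice (g : X →L[𝕜] 𝕜) (δ : ℝ) : Set X :=
  {x | x ∈ closedBall (0 : X) 1 ∧
    sSup ((fun z => RCLike.re (g z)) '' closedBall (0 : X) 1) - δ < RCLike.re (g x)}

/-- convex combinations of slices -/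
def IsCcs (C : Set X) : Prop :=
  ∃ (n : ℕ) (l : Fin n → ℝ) (g : Fin n → (X →L[𝕜] 𝕜)) (δ : Fin n → ℝ),
    (∀ i, 0 < l i ∧ l i ≤ 1) ∧ ∑ i, l i = 1 ∧ (∀ i, 0 < δ i) ∧
    C = {y | ∃ z : Fin n → X, (∀ i, z i ∈ slice 𝕜 (g i) (δ i)) ∧ y = ∑ i, ((l i : ℝ) : 𝕜) • z i}

/-- ccs `Δ`-points -/
def IsCcsDeltaPoint (x : X) : Prop :=
  ‖x‖ = 1 ∧ ∀ C : Set X, IsCcs 𝕜 C → x ∈ C → sSup ((fun y => ‖x - y‖) '' C) = 2

variable (X) in
/-- Property (A) -/
def PropertyA : Prop :=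
  ∃ (𝒜 : Set (X →L[𝕜] X)) (c : ℝ), c < 2 ∧
    (∀ T ∈ 𝒜, FiniteDimensional 𝕜 (LinearMap.range T.toLinearMap) ∧
      ‖ContinuousLinearMap.id 𝕜 X - T‖ ≤ c) ∧
    ∀ ε : ℝ, 0 < ε → ∀ x : X, ∃ T ∈ 𝒜, ‖x - T x‖ < ε

end defs

/-- No Banach space with property (A) contains a ccs `Δ`-point. -/
theorem result (𝕜 : Type) [RCLike 𝕜] (X : Type) [NormedAddCommGroup X] [NormedSpace 𝕜 X]
    (hA : PropertyA 𝕜 X) : ¬ ∃ x : X, IsCcsDeltaPoint 𝕜 x := by
  classical
  rintro ⟨x, hx1, hx⟩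
  obtain ⟨𝒜, c, hc, hfin, happ⟩ := hA
  set ε : ℝ := (2 - c) / 8 with hε
  have hεpos : 0 < ε := by rw [hε]; linarith
  obtain ⟨T, hT, hTx⟩ := happ ε hεpos x
  obtain ⟨hfd, hTc⟩ := hfin T hT
  set κ : ℝ := 5 * ε with hκ
  have hκpos : 0 < κ := by rw [hκ]; linarith
  let R := LinearMap.range T.toLinearMap
  let T' : X →L[𝕜] R := T.codRestrict R (fun z => ⟨z, rfl⟩)
  haveI : FiniteDimensional 𝕜 R := hfd
  haveI : ProperSpace (R →L[𝕜] 𝕜) := FiniteDimensional.proper 𝕜 _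
  set ρ : ℝ := κ / (8 * (‖T'‖ + 1)) with hρ
  have hρpos : 0 < ρ := by rw [hρ]; positivity
  have hcomp : IsCompact (closedBall (0 : R →L[𝕜] 𝕜) 1) := isCompact_closedBall _ _
  obtain ⟨t, hts, htfin, htcov⟩ := hcomp.finite_cover_balls hρpos
  obtain ⟨tf, rfl⟩ := htfin.exists_finset_coe
  -- index by `Fin n`
  set n := tf.card with hn
  let e : tf ≃ Fin n := tf.equivFin
  have hnpos : 0 < n := by
    rw [hn, Finset.card_pos]
    have h0 : (0 : R →L[𝕜] 𝕜) ∈ closedBall (0 : R →L[𝕜] 𝕜) 1 := by simp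
    have h1 := htcov h0
    rw [Set.mem_iUnion₂] at h1
    obtain ⟨h, hh, -⟩ := h1
    exact ⟨h, hh⟩
  have hnR : (0 : ℝ) < n := by exact_mod_cast hnpos
  let g : Fin n → (X →L[𝕜] 𝕜) := fun i => ((e.symm i : tf) : R →L[𝕜] 𝕜).comp T'
  let M : Fin n → ℝ := fun i => sSup ((fun z => RCLike.re (g i z)) '' closedBall (0 : X) 1)
  have hxball : x ∈ closedBall (0 : X) 1 := by simp [hx1]
  have hM : ∀ i, RCLike.re (g i x) ≤ M i := by
    intro i
    apply le_csSup
    · refine ⟨‖g i‖, ?_⟩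
      rintro _ ⟨z, hz, rfl⟩
      rw [mem_closedBall_zero_iff] at hz
      calc RCLike.re (g i z) ≤ ‖g i z‖ := RCLike.re_le_norm _
        _ ≤ ‖g i‖ * ‖z‖ := (g i).le_opNorm z
        _ ≤ ‖g i‖ * 1 := mul_le_mul_of_nonneg_left hz (norm_nonneg _)
        _ = ‖g i‖ := mul_one _
    · exact ⟨x, hxball, rfl⟩
  let C : Set X := {y | ∃ z : Fin n → X,
    (∀ i, z i ∈ slice 𝕜 (g i) (M i - RCLike.re (g i x) + κ / 4)) ∧
      y = ∑ i, (((1 / n : ℝ) : ℝ) : 𝕜) • z i}
  have hC : IsCcs 𝕜 C := by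
    refine ⟨n, fun _ => 1 / n, g, fun i => M i - RCLike.re (g i x) + κ / 4, ?_, ?_, ?_, rfl⟩
    · intro i
      refine ⟨by positivity, ?_⟩
      rw [div_le_one hnR]
      exact_mod_cast hnpos
    · rw [Finset.sum_const, Finset.card_univ, Fintype.card_fin, nsmul_eq_mul]
      field_simp
    · intro i
      have := hM i
      linarith
  have hxC : x ∈ C := by
    refine ⟨fun _ => x, fun i => ⟨hxball, ?_⟩, ?_⟩
    · show M i - (M i - RCLike.re (g i x) + κ / 4) < RCLike.re (g i x)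
      linarith
    · rw [Finset.sum_const, Finset.card_univ, Fintype.card_fin, ← Nat.cast_smul_eq_nsmul 𝕜,
        smul_smul]
      have : ((n : 𝕜) * (((1 / n : ℝ) : ℝ) : 𝕜)) = 1 := by
        have hn0 : (n : 𝕜) ≠ 0 := Nat.cast_ne_zero.2 hnpos.ne'
        push_cast
        rw [one_div, mul_inv_cancel₀ hn0]
      rw [this, one_smul]
  have hsup := hx C hC hxC
  obtain ⟨_, ⟨y, hyC, rfl⟩, hy⟩ : ∃ r ∈ (fun y => ‖x - y‖) '' C, 2 - ε / n < r := by
    have hne : ((fun y => ‖x - y‖) '' C).Nonempty := ⟨_, x, hxC, rfl⟩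
    apply exists_lt_of_lt_csSup hne
    rw [hsup]
    have : 0 < ε / n := by positivity
    linarith
  obtain ⟨z, hz, hyz⟩ := hyC
  have hxy : x - y ≠ 0 := by
    intro h
    simp only [h, norm_zero] at hy
    have h1 : ε / n ≤ ε := by
      rw [div_le_iff₀ hnR]
      have : (1 : ℝ) ≤ n := by exact_mod_cast hnpos
      nlinarith
    have h2 : 0 ≤ c := (norm_nonneg _).trans hTc
    rw [hε] at h1
    linarith
  obtain ⟨f, hf1, hfxy⟩ := exists_dual_vector 𝕜 (x - y) (norm_ne_zero_iff.2 hxy)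
  have hre : ∀ w : X, |RCLike.re (f w)| ≤ ‖w‖ := by
    intro w
    calc |RCLike.re (f w)| ≤ ‖f w‖ := RCLike.abs_re_le_norm _
      _ ≤ ‖f‖ * ‖w‖ := f.le_opNorm w
      _ = ‖w‖ := by rw [hf1, one_mul]
  have h1 : RCLike.re (f x) - RCLike.re (f y) = ‖x - y‖ := by
    rw [← map_sub, ← map_sub, hfxy]
    simp
  have hzb : ∀ i, ‖z i‖ ≤ 1 := fun i => mem_closedBall_zero_iff.1 (hz i).1
  have h2 : RCLike.re (f y) = ∑ i, (1 / n : ℝ) * RCLike.re (f (z i)) := by
    rw [hyz, map_sum, map_sum]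
    apply Finset.sum_congr rfl
    intro i _
    rw [map_smul, smul_eq_mul, RCLike.re_ofReal_mul]
  have h3 : ∀ i, -1 ≤ RCLike.re (f (z i)) := fun i => by
    have := (abs_le.1 (hre (z i))).1
    have h4 := hzb i
    linarith
  have h4 : -1 ≤ RCLike.re (f y) := by
    rw [h2, ← Finset.mul_sum]
    have h5 : ∑ i : Fin n, (-1 : ℝ) ≤ ∑ i, RCLike.re (f (z i)) :=
      Finset.sum_le_sum fun i _ => h3 i
    rw [Finset.sum_const, Finset.card_univ, Fintype.card_fin, nsmul_eq_mul] at h5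
    have h6 := mul_le_mul_of_nonneg_left h5 (by positivity : (0 : ℝ) ≤ 1 / n)
    have h7 : (1 / n : ℝ) * ((n : ℝ) * -1) = -1 := by field_simp
    linarith
  have hεn : ε / n ≤ ε := by
    rw [div_le_iff₀ hnR]
    have : (1 : ℝ) ≤ n := by exact_mod_cast hnpos
    nlinarith
  have h5 : 1 - ε < RCLike.re (f x) := by linarith
  have h6 : RCLike.re (f x) ≤ 1 := by
    have := (abs_le.1 (hre x)).2
    linarith
  -- every `z j` is far
  have h7 : ∀ j, RCLike.re (f (z j)) < -1 + ε := by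
    intro j
    have h8 : RCLike.re (f y) + 1 = ∑ i, (1 / n : ℝ) * (RCLike.re (f (z i)) + 1) := by
      rw [h2]
      simp_rw [mul_add]
      rw [Finset.sum_add_distrib, Finset.sum_const, Finset.card_univ, Fintype.card_fin,
        nsmul_eq_mul]
      congr 1
      field_simp
    have h9 : (1 / n : ℝ) * (RCLike.re (f (z j)) + 1) ≤ RCLike.re (f y) + 1 := by
      rw [h8]
      apply Finset.single_le_sum (f := fun i => (1 / n : ℝ) * (RCLike.re (f (z i)) + 1)) _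
        (Finset.mem_univ j)
      intro i _
      have := h3 i
      exact mul_nonneg (by positivity) (by linarith)
    have h10 : (1 / n : ℝ) * (RCLike.re (f (z j)) + 1) < ε / n := by linarith
    rw [one_div_mul_eq_div, div_lt_div_iff_of_pos_right hnR] at h10
    linarith
  -- the compactness argument
  let fι : R →L[𝕜] 𝕜 := f.comp R.subtypeL
  have hfι : fι ∈ closedBall (0 : R →L[𝕜] 𝕜) 1 := by
    rw [mem_closedBall_zero_iff]
    apply ContinuousLinearMap.opNorm_le_bound _ zero_le_one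
    intro w
    calc ‖f (w : X)‖ ≤ ‖f‖ * ‖(w : X)‖ := f.le_opNorm _
      _ = 1 * ‖w‖ := by rw [hf1]; rfl
  have h8 := htcov hfι
  rw [Set.mem_iUnion₂] at h8
  obtain ⟨h, hh, hball⟩ := h8
  let j : Fin n := e ⟨h, hh⟩
  have hgj : g j = h.comp T' := by
    show ((e.symm (e ⟨h, hh⟩) : tf) : R →L[𝕜] 𝕜).comp T' = _
    rw [Equiv.symm_apply_apply]
  have h9 : RCLike.re (h (T' x)) - κ / 4 < RCLike.re (h (T' (z j))) := by
    have h10 := (hz j).2
    change M j - (M j - RCLike.re (g j x) + κ / 4) < RCLike.re (g j (z j)) at h10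
    rw [hgj] at h10
    change M j - (M j - RCLike.re (h (T' x)) + κ / 4) < RCLike.re (h (T' (z j))) at h10
    linarith
  have h10 : RCLike.re (f (T x)) > 1 - 2 * ε := by
    have h11 := (abs_le.1 (hre (x - T x))).2
    rw [map_sub, map_sub] at h11
    linarith
  have h11 : RCLike.re (f (T (z j))) < -1 + ε + c := by
    have h12 := (abs_le.1 (hre (T (z j) - z j))).2
    rw [map_sub, map_sub] at h12
    have h13 : ‖T (z j) - z j‖ ≤ c := by
      rw [norm_sub_rev]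
      calc ‖z j - T (z j)‖ = ‖(ContinuousLinearMap.id 𝕜 X - T) (z j)‖ := rfl
        _ ≤ ‖ContinuousLinearMap.id 𝕜 X - T‖ * ‖z j‖ := ContinuousLinearMap.le_opNorm _ _
        _ ≤ c * 1 := mul_le_mul hTc (hzb j) (norm_nonneg _) ((norm_nonneg _).trans hTc)
        _ = c := mul_one _
    have h14 := h7 j
    linarith
  have h12 : |RCLike.re ((fι - h) (T' (x - z j)))| ≤ κ / 4 := by
    have h13 : ‖fι - h‖ < ρ := by rwa [mem_ball_iff_norm] at hball
    have h14 : ‖x - z j‖ ≤ 2 := by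
      calc ‖x - z j‖ ≤ ‖x‖ + ‖z j‖ := norm_sub_le _ _
        _ ≤ 1 + 1 := add_le_add hx1.le (hzb j)
        _ = 2 := by norm_num
    calc |RCLike.re ((fι - h) (T' (x - z j)))| ≤ ‖(fι - h) (T' (x - z j))‖ :=
          RCLike.abs_re_le_norm _
      _ ≤ ‖fι - h‖ * ‖T' (x - z j)‖ := ContinuousLinearMap.le_opNorm _ _
      _ ≤ ρ * (‖T'‖ * 2) := by
          apply mul_le_mul h13.le _ (norm_nonneg _) hρpos.le
          exact (T'.le_opNorm _).trans (mul_le_mul_of_nonneg_left h14 (norm_nonneg _))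
      _ ≤ ρ * ((‖T'‖ + 1) * 2) := by
          apply mul_le_mul_of_nonneg_left _ hρpos.le
          linarith
      _ = κ / 4 := by
          rw [hρ]
          have : (‖T'‖ + 1) ≠ 0 := by positivity
          field_simp
          norm_num
  have h13 : (fι - h) (T' (x - z j)) = f (T x) - f (T (z j)) - (h (T' x) - h (T' (z j))) := by
    show f (T (x - z j)) - h (T' (x - z j)) = _
    rw [map_sub, map_sub, map_sub, map_sub]
  rw [h13, map_sub, map_sub, map_sub] at h12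
  have h14 := (abs_le.1 h12).2
  have h15 : c = 2 - 8 * ε := by rw [hε]; ring
  have h16 : κ = 5 * ε := hκ
  linarith

end Pool.Agent.Results.MP_d10958_an.NoCcsDelta
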